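import Pool.Agent.Y254.HK.Stm

/-!
# Project HK: the two-ends condition and broadness from dyadic bounds

`t_sumh : S_SUMH` and `t_sumd : S_SUMD`.
-/

set_option autoImplicit false

open Finset
open scoped Classical

namespace Pool.Agent.Y86.HK
open Pool.Agent.W904.AK Pool.Agent.W46.HD Pool.Agent.W46.HM Pool.Agent.Y244.HM
  Pool.Agent.W597.HD Pool.Agent.Y254HK

/-! ### Logarithms and numbers of scales -/

lemma log_two_le : Real.log 2 ≤ 1 := by
  have := Real.log_le_sub_one_of_pos (x := 2) (by norm_num)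
  linarith

/-- Number of scales above `t`. -/
lemma log_above (t : ℝ) (ht : 1 ≤ t) : ∀ m : ℕ,
    Real.log ((2 : ℝ) ^ m / t) ≤ 1 + ∑ k ∈ Finset.range m, (if t ≤ (2 : ℝ) ^ k then (1 : ℝ) else 0)
  | 0 => by
    have h1 : Real.log ((2 : ℝ) ^ 0 / t) ≤ 0 := by
      apply Real.log_nonpos
      · positivity
      · rw [pow_zero]
        exact (div_le_one (by linarith)).2 ht
    simp only [Finset.range_zero, Finset.sum_empty]
    linarith
  | m + 1 => by
    have ih := log_above t ht m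
    have ht0 : 0 < t := by linarith
    rw [Finset.sum_range_succ]
    by_cases h : t ≤ (2 : ℝ) ^ m
    · rw [if_pos h]
      have e : (2 : ℝ) ^ (m + 1) / t = 2 * ((2 : ℝ) ^ m / t) := by rw [pow_succ]; ring
      rw [e, Real.log_mul (by norm_num) (by positivity)]
      have := log_two_le
      linarith
    · rw [if_neg h]
      have h' : (2 : ℝ) ^ m < t := lt_of_not_ge h
      have h2 : (2 : ℝ) ^ (m + 1) / t ≤ 2 := by
        rw [div_le_iff₀ ht0, pow_succ]
        linarith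
      have h3 : Real.log ((2 : ℝ) ^ (m + 1) / t) ≤ Real.log 2 :=
        Real.log_le_log (by positivity) h2
      have h4 : 0 ≤ ∑ k ∈ Finset.range m, (if t ≤ (2 : ℝ) ^ k then (1 : ℝ) else 0) :=
        Finset.sum_nonneg fun k _ => by split_ifs <;> norm_num
      have := log_two_le
      linarith

/-- Number of scales below `1 / θ`. -/
lemma log_below (θ : ℝ) (h0 : 0 ≤ θ) : ∀ (m : ℕ) (u : ℝ), 0 < u → u ≤ (2 : ℝ) ^ m → u * θ ≤ 1 →
    Real.log u ≤ ∑ k ∈ Finset.range m, (if (2 : ℝ) ^ k * θ ≤ 1 then (1 : ℝ) else 0)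
  | 0 => by
    intro u hu h1 _
    simp only [Finset.range_zero, Finset.sum_empty]
    exact Real.log_nonpos hu.le (by simpa using h1)
  | m + 1 => by
    intro u hu h1 h2
    rw [Finset.sum_range_succ]
    by_cases h : u ≤ (2 : ℝ) ^ m
    · have := log_below θ h0 m u hu h h2
      have h3 : (0 : ℝ) ≤ (if (2 : ℝ) ^ m * θ ≤ 1 then (1 : ℝ) else 0) := by
        split_ifs <;> norm_num
      linarith
    · have h' : (2 : ℝ) ^ m ≤ u := (lt_of_not_ge h).le
      have h3 : (2 : ℝ) ^ m * θ ≤ 1 := (mul_le_mul_of_nonneg_right h' h0).trans h2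
      rw [if_pos h3]
      have h4 := log_below θ h0 m (u / 2) (by positivity)
        (by rw [pow_succ] at h1; linarith)
        (by
          have : u / 2 * θ ≤ u * θ := mul_le_mul_of_nonneg_right (by linarith) h0
          linarith)
      have e : u = 2 * (u / 2) := by ring
      rw [e, Real.log_mul (by norm_num) (by positivity)]
      have := log_two_le
      linarith

lemma lt_two_pow (n : ℕ) : (n : ℝ) ≤ (2 : ℝ) ^ (Nat.log 2 n + 1) := by
  have h : n < 2 ^ (Nat.log 2 n + 1) := Nat.lt_pow_succ_log_self (by norm_num) n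
  have : ((n : ℕ) : ℝ) ≤ ((2 ^ (Nat.log 2 n + 1) : ℕ) : ℝ) := by exact_mod_cast h.le
  simpa using this

/-! ### Heights -/

lemma pz_le (n : ℕ) (x y : ℤ) :
    pz n x y ≤ 1 + ∑ k ∈ Finset.range (Nat.log 2 n + 1),
      (if |x - y| ≤ (2 : ℤ) ^ k then (1 : ℝ) else 0) := by
  unfold pz
  set t : ℝ := max 1 |(x : ℝ) - (y : ℝ)| with ht
  have ht1 : 1 ≤ t := le_max_left _ _
  have ht0 : 0 < t := by linarith
  have h1 : Real.log (max 1 ((n : ℝ) / t)) ≤
      1 + ∑ k ∈ Finset.range (Nat.log 2 n + 1), (if t ≤ (2 : ℝ) ^ k then (1 : ℝ) else 0) := by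
    rcases le_total ((n : ℝ) / t) 1 with h | h
    · rw [max_eq_left h, Real.log_one]
      have : 0 ≤ ∑ k ∈ Finset.range (Nat.log 2 n + 1), (if t ≤ (2 : ℝ) ^ k then (1 : ℝ) else 0) :=
        Finset.sum_nonneg fun k _ => by split_ifs <;> norm_num
      linarith
    · rw [max_eq_right h]
      refine le_trans (Real.log_le_log (by linarith) ?_) (log_above t ht1 _)
      exact div_le_div_of_nonneg_right (lt_two_pow n) ht0.le
  refine h1.trans (add_le_add_right (Finset.sum_le_sum fun k _ => ?_) _)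
  by_cases h : t ≤ (2 : ℝ) ^ k
  · rw [if_pos h]
    have h2 : |(x : ℝ) - (y : ℝ)| ≤ (2 : ℝ) ^ k := (le_max_right _ _).trans h
    have h3 : |x - y| ≤ (2 : ℤ) ^ k := by
      have : ((|x - y| : ℤ) : ℝ) ≤ (((2 : ℤ) ^ k : ℤ) : ℝ) := by
        push_cast
        exact h2
      exact_mod_cast this
    rw [if_pos h3]
  · rw [if_neg h]
    split_ifs <;> norm_num

/-- An interval of radius `2 ^ k` meets at most three dyadic intervals. -/
lemma near_le (k : ℕ) (j : ℕ) (x : ℤ) (h : |(j : ℤ) - x| ≤ (2 : ℤ) ^ k) :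
    ∃ e : Fin 3, j / 2 ^ k = (x / (2 : ℤ) ^ k + ((e : ℕ) : ℤ) - 1).toNat := by
  have hp : (0 : ℤ) < (2 : ℤ) ^ k := by positivity
  have hj : ((j / 2 ^ k : ℕ) : ℤ) = (j : ℤ) / (2 : ℤ) ^ k := by push_cast; rfl
  rw [abs_le] at h
  have h1 : (j : ℤ) / (2 : ℤ) ^ k ≤ x / (2 : ℤ) ^ k + 1 := by
    have : (j : ℤ) ≤ x + (2 : ℤ) ^ k * 1 := by linarith [h.2]
    calc (j : ℤ) / (2 : ℤ) ^ k ≤ (x + (2 : ℤ) ^ k * 1) / (2 : ℤ) ^ k := Int.ediv_le_ediv hp this
      _ = x / (2 : ℤ) ^ k + 1 := by rw [Int.add_mul_ediv_left _ _ hp.ne']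
  have h2 : x / (2 : ℤ) ^ k ≤ (j : ℤ) / (2 : ℤ) ^ k + 1 := by
    have : x ≤ (j : ℤ) + (2 : ℤ) ^ k * 1 := by linarith [h.1]
    calc x / (2 : ℤ) ^ k ≤ ((j : ℤ) + (2 : ℤ) ^ k * 1) / (2 : ℤ) ^ k := Int.ediv_le_ediv hp this
      _ = (j : ℤ) / (2 : ℤ) ^ k + 1 := by rw [Int.add_mul_ediv_left _ _ hp.ne']
  rw [← hj] at h1 h2
  have h3 : ((j / 2 ^ k : ℕ) : ℤ) = x / (2 : ℤ) ^ k - 1 ∨
      ((j / 2 ^ k : ℕ) : ℤ) = x / (2 : ℤ) ^ k ∨ ((j / 2 ^ k : ℕ) : ℤ) = x / (2 : ℤ) ^ k + 1 := by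
    omega
  rcases h3 with h3 | h3 | h3
  · refine ⟨0, ?_⟩
    have : x / (2 : ℤ) ^ k + (((0 : Fin 3) : ℕ) : ℤ) - 1 = ((j / 2 ^ k : ℕ) : ℤ) := by
      rw [h3]; simp
    rw [this, Int.toNat_natCast]
  · refine ⟨1, ?_⟩
    have : x / (2 : ℤ) ^ k + (((1 : Fin 3) : ℕ) : ℤ) - 1 = ((j / 2 ^ k : ℕ) : ℤ) := by
      rw [h3]; simp
    rw [this, Int.toNat_natCast]
  · refine ⟨2, ?_⟩
    have : x / (2 : ℤ) ^ k + (((2 : Fin 3) : ℕ) : ℤ) - 1 = ((j / 2 ^ k : ℕ) : ℤ) := by
      rw [h3]; simp; ring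
    rw [this, Int.toNat_natCast]

theorem t_sumh : S_SUMH := by
  intro n Ω _ p hn hp r hr
  -- the best dyadic intervals
  have hex : ∀ (k : ℕ) (ω : Ω), ∃ a : ℕ, ∀ b : ℕ,
      ∑ j : Fin n, (if (j : ℕ) / 2 ^ k = b then p (ω, j) else 0) ≤
      ∑ j : Fin n, (if (j : ℕ) / 2 ^ k = a then p (ω, j) else 0) := by
    intro k ω
    obtain ⟨a, -, ha⟩ := Finset.exists_max_image (Finset.range n)
      (fun a => ∑ j : Fin n, (if (j : ℕ) / 2 ^ k = a then p (ω, j) else 0))
      ⟨0, Finset.mem_range.2 hn⟩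
    refine ⟨a, fun b => ?_⟩
    by_cases hb : b ∈ Finset.range n
    · exact ha b hb
    · have h0 : ∑ j : Fin n, (if (j : ℕ) / 2 ^ k = b then p (ω, j) else 0) = 0 := by
        refine Finset.sum_eq_zero fun j _ => ?_
        rw [if_neg]
        intro h
        apply hb
        rw [Finset.mem_range, ← h]
        exact lt_of_le_of_lt (Nat.div_le_self _ _) j.2
      rw [h0]
      exact Finset.sum_nonneg fun j _ => by split_ifs; exacts [hp.nonneg _, le_rfl]
  choose a ha using hex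
  have hM0 : ∀ (k : ℕ) (ω : Ω),
      0 ≤ ∑ j : Fin n, (if (j : ℕ) / 2 ^ k = a k ω then p (ω, j) else 0) := fun k ω =>
    Finset.sum_nonneg fun j _ => by split_ifs; exacts [hp.nonneg _, le_rfl]
  refine ⟨fun ω => ∑ j : Fin n, p (ω, j) + 4 * ∑ k ∈ Finset.range (Nat.log 2 n + 1),
    ∑ j : Fin n, (if (j : ℕ) / 2 ^ k = a k ω then p (ω, j) else 0), ?_, ?_⟩
  · intro ω x
    -- one scale
    have h1 : ∀ k : ℕ, ∑ j : Fin n, p (ω, j) * (if |((j : ℕ) : ℤ) - x| ≤ (2 : ℤ) ^ k then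
        (1 : ℝ) else 0) ≤
        4 * ∑ j : Fin n, (if (j : ℕ) / 2 ^ k = a k ω then p (ω, j) else 0) := by
      intro k
      have h2 : ∑ j : Fin n, p (ω, j) * (if |((j : ℕ) : ℤ) - x| ≤ (2 : ℤ) ^ k then
          (1 : ℝ) else 0) ≤ ∑ j : Fin n, ∑ e : Fin 3,
          (if (j : ℕ) / 2 ^ k = (x / (2 : ℤ) ^ k + ((e : ℕ) : ℤ) - 1).toNat
            then p (ω, j) else 0) := by
        refine Finset.sum_le_sum fun j _ => ?_
        have hpos : ∀ e ∈ (Finset.univ : Finset (Fin 3)),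
            0 ≤ (if (j : ℕ) / 2 ^ k = (x / (2 : ℤ) ^ k + ((e : ℕ) : ℤ) - 1).toNat
            then p (ω, j) else 0) := fun e _ => by
          split_ifs; exacts [hp.nonneg _, le_rfl]
        by_cases h : |((j : ℕ) : ℤ) - x| ≤ (2 : ℤ) ^ k
        · rw [if_pos h, mul_one]
          obtain ⟨e, he⟩ := near_le k j x h
          calc p (ω, j) = (if (j : ℕ) / 2 ^ k = (x / (2 : ℤ) ^ k + ((e : ℕ) : ℤ) - 1).toNat
            then p (ω, j) else 0) := by rw [if_pos he]
            _ ≤ _ := Finset.single_le_sum hpos (Finset.mem_univ e)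
        · rw [if_neg h, mul_zero]
          exact Finset.sum_nonneg hpos
      rw [Finset.sum_comm] at h2
      have h3 : ∑ e : Fin 3, ∑ j : Fin n,
          (if (j : ℕ) / 2 ^ k = (x / (2 : ℤ) ^ k + ((e : ℕ) : ℤ) - 1).toNat
            then p (ω, j) else 0) ≤
          ∑ e : Fin 3, ∑ j : Fin n, (if (j : ℕ) / 2 ^ k = a k ω then p (ω, j) else 0) :=
        Finset.sum_le_sum fun e _ => ha k ω _
      rw [Finset.sum_const, Finset.card_univ, Fintype.card_fin, nsmul_eq_mul] at h3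
      have h4 := hM0 k ω
      push_cast at h3
      linarith
    calc ∑ j : Fin n, p (ω, j) * pz n ((j : ℕ) : ℤ) x
        ≤ ∑ j : Fin n, p (ω, j) * (1 + ∑ k ∈ Finset.range (Nat.log 2 n + 1),
          (if |((j : ℕ) : ℤ) - x| ≤ (2 : ℤ) ^ k then (1 : ℝ) else 0)) :=
          Finset.sum_le_sum fun j _ => mul_le_mul_of_nonneg_left (pz_le n _ _) (hp.nonneg _)
      _ = ∑ j : Fin n, p (ω, j) + ∑ k ∈ Finset.range (Nat.log 2 n + 1),
          ∑ j : Fin n, p (ω, j) * (if |((j : ℕ) : ℤ) - x| ≤ (2 : ℤ) ^ k then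
            (1 : ℝ) else 0) := by
          rw [Finset.sum_comm, ← Finset.sum_add_distrib]
          refine Finset.sum_congr rfl fun j _ => ?_
          rw [mul_add, mul_one, Finset.mul_sum]
      _ ≤ ∑ j : Fin n, p (ω, j) + ∑ k ∈ Finset.range (Nat.log 2 n + 1),
          4 * ∑ j : Fin n, (if (j : ℕ) / 2 ^ k = a k ω then p (ω, j) else 0) :=
          add_le_add_right (Finset.sum_le_sum fun k _ => h1 k) _
      _ = _ := by rw [← Finset.mul_sum]
  · have e1 : ∑ ω : Ω, ∑ j : Fin n, p (ω, j) = 1 := by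
      rw [← Fintype.sum_prod_type, hp.total]
    have e2 : ∑ ω : Ω, 4 * ∑ k ∈ Finset.range (Nat.log 2 n + 1),
        ∑ j : Fin n, (if (j : ℕ) / 2 ^ k = a k ω then p (ω, j) else 0) =
        4 * ∑ k ∈ Finset.range (Nat.log 2 n + 1),
          ∑ z : Ω × Fin n, (if (z.2 : ℕ) / 2 ^ k = a k z.1 then p z else 0) := by
      rw [← Finset.mul_sum, Finset.sum_comm]
      congr 1
      refine Finset.sum_congr rfl fun k _ => ?_
      rw [Fintype.sum_prod_type]
    rw [Finset.sum_add_distrib, e1, e2]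
    have e3 : ∑ k ∈ Finset.range (Nat.log 2 n + 1),
          ∑ z : Ω × Fin n, (if (z.2 : ℕ) / 2 ^ k = a k z.1 then p z else 0) ≤
        ∑ k ∈ Finset.range (Nat.log 2 n + 1), r k :=
      Finset.sum_le_sum fun k hk => hr k (Nat.lt_succ_iff.1 (Finset.mem_range.1 hk)) (a k)
    linarith

/-! ### Directions -/

lemma norm_sub_le_one {Ω : Type} {d n : ℕ} {D : Ω → Fin d → ℝ} (hD : IsFam n D) (ω ω' : Ω) :
    ‖D ω - D ω'‖ ≤ 1 := by
  rw [pi_norm_le_iff_of_nonneg (by norm_num)]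
  intro i
  rw [Pi.sub_apply, Real.norm_eq_abs, abs_le]
  constructor
  · linarith [hD.lo ω i, hD.hi ω' i]
  · linarith [hD.lo ω' i, hD.hi ω i]

lemma dz_le {Ω : Type} {d n : ℕ} {D : Ω → Fin d → ℝ} (hD : IsFam n D) (ω ω' : Ω) :
    dz n D ω ω' ≤ ∑ k ∈ Finset.range (Nat.log 2 n + 1),
      (if (2 : ℝ) ^ k * ‖D ω - D ω'‖ ≤ 1 then (1 : ℝ) else 0) := by
  unfold dz
  set θ : ℝ := ‖D ω - D ω'‖ with hθ
  have h0 : 0 ≤ θ := norm_nonneg _
  have h1 : θ ≤ 1 := norm_sub_le_one hD ω ω'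
  have hn : (1 : ℝ) ≤ n := by exact_mod_cast hD.pos
  set t : ℝ := max 1 ((n : ℝ) * θ) with ht
  have ht1 : 1 ≤ t := le_max_left _ _
  have ht2 : (n : ℝ) * θ ≤ t := le_max_right _ _
  have ht0 : 0 < t := by linarith
  have ht3 : t ≤ n := by
    apply max_le hn
    calc (n : ℝ) * θ ≤ n * 1 := mul_le_mul_of_nonneg_left h1 (by linarith)
      _ = n := mul_one _
  have h2 : 1 ≤ (n : ℝ) / t := (one_le_div ht0).2 ht3
  rw [max_eq_right h2]
  refine log_below θ h0 _ _ (by linarith) ?_ ?_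
  · refine le_trans ?_ (lt_two_pow n)
    exact div_le_self (by linarith) ht1
  · rw [div_mul_eq_mul_div, div_le_one ht0]
    exact ht2

/-- Two points at distance at most `1` are in adjacent cubes. -/
lemma floor_near {d : ℕ} (x y : Fin d → ℝ) (h : ∀ i, |x i - y i| ≤ 1) :
    ∃ e : Fin d → Fin 3, (fun i => ⌊y i⌋) = fun i => ⌊x i⌋ + (((e i : ℕ) : ℤ) - 1) := by
  have : ∀ i, ∃ e : Fin 3, ⌊y i⌋ = ⌊x i⌋ + (((e : ℕ) : ℤ) - 1) := by
    intro i
    have hi := abs_le.1 (h i)
    have h1 : ⌊y i⌋ ≤ ⌊x i⌋ + 1 := by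
      have : y i ≤ x i + 1 := by linarith [hi.1]
      calc ⌊y i⌋ ≤ ⌊x i + 1⌋ := Int.floor_le_floor this
        _ = ⌊x i⌋ + 1 := Int.floor_add_one _
    have h2 : ⌊x i⌋ ≤ ⌊y i⌋ + 1 := by
      have : x i ≤ y i + 1 := by linarith [hi.2]
      calc ⌊x i⌋ ≤ ⌊y i + 1⌋ := Int.floor_le_floor this
        _ = ⌊y i⌋ + 1 := Int.floor_add_one _
    have h3 : ⌊y i⌋ = ⌊x i⌋ - 1 ∨ ⌊y i⌋ = ⌊x i⌋ ∨ ⌊y i⌋ = ⌊x i⌋ + 1 := by omega
    rcases h3 with h3 | h3 | h3
    · exact ⟨0, by rw [h3]; simp; try ring⟩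
    · exact ⟨1, by rw [h3]; simp⟩
    · exact ⟨2, by rw [h3]; simp; try ring⟩
  choose e he using this
  exact ⟨e, funext he⟩

/-- The best value of `Q` for each value of `f`, in the form of an inequality for the gluing. -/
lemma glue_scale {Θ α β : Type} [Fintype Θ] {p : Θ → ℝ} (hp : IsLaw p) (f : Θ → α) (Q : Θ → β)
    {ι : Type} [Fintype ι] (sh : ι → β → β) (W : Θ → Θ → Prop)
    (hW : ∀ z z', W z z' → ∃ e, Q z' = sh e (Q z)) (r : ℝ)
    (hr : ∀ κ : α → β, ∑ z, (if Q z = κ (f z) then p z else 0) ≤ r) :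
    ∑ z : Θ × Θ, glue p p f f z * (if W z.1 z.2 then (1 : ℝ) else 0) ≤ Fintype.card ι * r := by
  have hne : Nonempty Θ := by
    by_contra h
    rw [not_nonempty_iff] at h
    have := hp.total
    rw [Finset.univ_eq_empty, Finset.sum_empty] at this
    exact zero_ne_one this
  have hex : ∀ c : α, ∃ v : β, ∀ w : β,
      ∑ z, (if f z = c ∧ Q z = w then p z else 0) ≤
      ∑ z, (if f z = c ∧ Q z = v then p z else 0) := by
    intro c
    obtain ⟨v, -, hv⟩ := Finset.exists_max_image (Finset.univ.image Q)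
      (fun v => ∑ z, (if f z = c ∧ Q z = v then p z else 0))
      (Finset.univ_nonempty.image Q)
    refine ⟨v, fun w => ?_⟩
    by_cases hw : w ∈ Finset.univ.image Q
    · exact hv w hw
    · have h0 : ∑ z, (if f z = c ∧ Q z = w then p z else 0) = 0 := by
        refine Finset.sum_eq_zero fun z _ => ?_
        rw [if_neg]
        rintro ⟨-, h⟩
        exact hw (Finset.mem_image.2 ⟨z, Finset.mem_univ _, h⟩)
      rw [h0]
      exact Finset.sum_nonneg fun z _ => by split_ifs; exacts [hp.nonneg _, le_rfl]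
  choose κ hκ using hex
  -- one point
  have h1 : ∀ z, ∑ z', glue p p f f (z, z') * (if W z z' then (1 : ℝ) else 0) ≤
      Fintype.card ι * (p z / im p f (f z) *
        ∑ z', (if f z' = f z ∧ Q z' = κ (f z) then p z' else 0)) := by
    intro z
    have hc : 0 ≤ p z / im p f (f z) := div_nonneg (hp.nonneg _) (im_nonneg hp _ _)
    have h2 : ∀ z', glue p p f f (z, z') * (if W z z' then (1 : ℝ) else 0) ≤
        p z / im p f (f z) * ∑ e : ι, (if f z' = f z ∧ Q z' = sh e (Q z) then p z' else 0) := by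
      intro z'
      have hpos : ∀ e ∈ (Finset.univ : Finset ι),
          0 ≤ (if f z' = f z ∧ Q z' = sh e (Q z) then p z' else 0) := fun e _ => by
        split_ifs; exacts [hp.nonneg _, le_rfl]
      by_cases hw : W z z'
      · rw [if_pos hw, mul_one]
        unfold glue
        by_cases hf : f z = f z'
        · simp only
          rw [if_pos hf]
          obtain ⟨e, he⟩ := hW z z' hw
          have h3 : p z' ≤ ∑ e : ι, (if f z' = f z ∧ Q z' = sh e (Q z) then p z' else 0) := by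
            calc p z' = (if f z' = f z ∧ Q z' = sh e (Q z) then p z' else 0) := by
                  rw [if_pos ⟨hf.symm, he⟩]
              _ ≤ _ := Finset.single_le_sum hpos (Finset.mem_univ e)
          calc p z * p z' / im p f (f z) = p z / im p f (f z) * p z' := by ring
            _ ≤ _ := mul_le_mul_of_nonneg_left h3 hc
        · simp only
          rw [if_neg hf]
          exact mul_nonneg hc (Finset.sum_nonneg hpos)
      · rw [if_neg hw, mul_zero]
        exact mul_nonneg hc (Finset.sum_nonneg hpos)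
    calc ∑ z', glue p p f f (z, z') * (if W z z' then (1 : ℝ) else 0)
        ≤ ∑ z', p z / im p f (f z) *
          ∑ e : ι, (if f z' = f z ∧ Q z' = sh e (Q z) then p z' else 0) :=
          Finset.sum_le_sum fun z' _ => h2 z'
      _ = p z / im p f (f z) * ∑ e : ι, ∑ z',
          (if f z' = f z ∧ Q z' = sh e (Q z) then p z' else 0) := by
          rw [← Finset.mul_sum, Finset.sum_comm]
      _ ≤ p z / im p f (f z) * ∑ e : ι, ∑ z',
          (if f z' = f z ∧ Q z' = κ (f z) then p z' else 0) :=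
          mul_le_mul_of_nonneg_left (Finset.sum_le_sum fun e _ => hκ (f z) _) hc
      _ = _ := by
          rw [Finset.sum_const, Finset.card_univ, nsmul_eq_mul]
          ring
  -- the sum over the points
  have h4 : ∑ z, p z / im p f (f z) *
      ∑ z', (if f z' = f z ∧ Q z' = κ (f z) then p z' else 0) ≤ r := by
    refine le_trans ?_ (hr κ)
    calc ∑ z, p z / im p f (f z) *
        ∑ z', (if f z' = f z ∧ Q z' = κ (f z) then p z' else 0)
        = ∑ z', ∑ z, p z / im p f (f z) *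
          (if f z' = f z ∧ Q z' = κ (f z) then p z' else 0) := by
          rw [Finset.sum_comm]
          exact Finset.sum_congr rfl fun z _ => Finset.mul_sum _ _ _
      _ ≤ ∑ z', (if Q z' = κ (f z') then p z' else 0) := by
          refine Finset.sum_le_sum fun z' _ => ?_
          by_cases hq : Q z' = κ (f z')
          · rw [if_pos hq]
            have h5 : ∀ z, p z / im p f (f z) *
                (if f z' = f z ∧ Q z' = κ (f z) then p z' else 0) =
                p z' / im p f (f z') * (if f z = f z' then p z else 0) := by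
              intro z
              by_cases hf : f z = f z'
              · rw [if_pos hf, if_pos ⟨hf.symm, by rw [hf]; exact hq⟩, hf]
                ring
              · rw [if_neg hf, if_neg (fun h => hf h.1.symm)]
                ring
            rw [Finset.sum_congr rfl fun z _ => h5 z, ← Finset.mul_sum]
            have h6 : ∑ z, (if f z = f z' then p z else 0) = im p f (f z') := by
              unfold im
              rfl
            rw [h6]
            by_cases hz : p z' = 0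
            · rw [hz]; simp
            · rw [div_mul_cancel₀ _ (im_pos hp f hz).ne']
          · rw [if_neg hq]
            refine le_of_eq (Finset.sum_eq_zero fun z _ => ?_)
            rw [if_neg, mul_zero]
            rintro ⟨h5, h6⟩
            exact hq (by rw [h5]; exact h6)
  rw [Fintype.sum_prod_type]
  calc ∑ z, ∑ z', glue p p f f (z, z') * (if W z z' then (1 : ℝ) else 0)
      ≤ ∑ z, Fintype.card ι * (p z / im p f (f z) *
        ∑ z', (if f z' = f z ∧ Q z' = κ (f z) then p z' else 0)) :=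
        Finset.sum_le_sum fun z _ => h1 z
    _ = Fintype.card ι * ∑ z, p z / im p f (f z) *
        ∑ z', (if f z' = f z ∧ Q z' = κ (f z) then p z' else 0) := by rw [← Finset.mul_sum]
    _ ≤ _ := mul_le_mul_of_nonneg_left h4 (Nat.cast_nonneg _)

theorem t_sumd : S_SUMD := by
  intro d n Ω _ A D p hD hp r hr
  unfold ang
  have h0 : ∀ z : (Ω × Fin n) × (Ω × Fin n), 0 ≤ glue p p (ce A D) (ce A D) z :=
    (glue_law hp hp fun _ => rfl).nonneg
  have h1 : ∀ k, k ≤ Nat.log 2 n →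
      ∑ z, glue p p (ce A D) (ce A D) z *
        (if (2 : ℝ) ^ k * ‖D z.1.1 - D z.2.1‖ ≤ 1 then (1 : ℝ) else 0) ≤ 3 ^ d * r k := by
    intro k hk
    have h2 := glue_scale (ι := Fin d → Fin 3) hp (ce A D)
      (fun z : Ω × Fin n => (fun i => ⌊(2 : ℝ) ^ k * D z.1 i⌋ : Fin d → ℤ))
      (fun e v => fun i => v i + (((e i : ℕ) : ℤ) - 1))
      (fun z z' => (2 : ℝ) ^ k * ‖D z.1 - D z'.1‖ ≤ 1)
      (fun z z' h => by
        refine floor_near (fun i => (2 : ℝ) ^ k * D z.1 i) (fun i => (2 : ℝ) ^ k * D z'.1 i)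
          fun i => ?_
        have e1 : (2 : ℝ) ^ k * D z.1 i - (2 : ℝ) ^ k * D z'.1 i =
            (2 : ℝ) ^ k * (D z.1 - D z'.1) i := by rw [Pi.sub_apply]; ring
        rw [e1, abs_mul, abs_of_pos (by positivity : (0 : ℝ) < (2 : ℝ) ^ k)]
        refine le_trans (mul_le_mul_of_nonneg_left ?_ (by positivity)) h
        exact norm_le_pi_norm (D z.1 - D z'.1) i)
      (r k) (fun κ => by
        refine le_trans (le_of_eq ?_) (hr k hk κ)
        refine Finset.sum_congr rfl fun z _ => ?_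
        split_ifs <;> rfl)
    have e2 : (Fintype.card (Fin d → Fin 3) : ℝ) = 3 ^ d := by
      rw [Fintype.card_fun, Fintype.card_fin, Fintype.card_fin]
      push_cast
      rfl
    rw [e2] at h2
    exact h2
  calc ∑ z, glue p p (ce A D) (ce A D) z * dz n D z.1.1 z.2.1
      ≤ ∑ z, glue p p (ce A D) (ce A D) z * ∑ k ∈ Finset.range (Nat.log 2 n + 1),
        (if (2 : ℝ) ^ k * ‖D z.1.1 - D z.2.1‖ ≤ 1 then (1 : ℝ) else 0) :=
        Finset.sum_le_sum fun z _ => mul_le_mul_of_nonneg_left (dz_le hD _ _) (h0 z)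
    _ = ∑ k ∈ Finset.range (Nat.log 2 n + 1), ∑ z, glue p p (ce A D) (ce A D) z *
        (if (2 : ℝ) ^ k * ‖D z.1.1 - D z.2.1‖ ≤ 1 then (1 : ℝ) else 0) := by
        rw [Finset.sum_comm]
        exact Finset.sum_congr rfl fun z _ => Finset.mul_sum _ _ _
    _ ≤ ∑ k ∈ Finset.range (Nat.log 2 n + 1), 3 ^ d * r k :=
        Finset.sum_le_sum fun k hk => h1 k (Nat.lt_succ_iff.1 (Finset.mem_range.1 hk))
    _ = _ := by rw [Finset.mul_sum]

end Pool.Agent.Y86.HK
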